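import Pool.Agent.Q63.BL.Rep

/-!
# Representations without vectors fixed by large subgroups: group rings
-/

set_option autoImplicit false

namespace Pool.Agent.Q63.BL

open Module

variable {G : Type*} [Group G]

/-- The action of the rational group ring in a complex representation. -/
noncomputable def ev {U : Type*} [AddCommGroup U] [Module ℂ U] (Θ : Representation ℂ G U) :
    MonoidAlgebra ℚ G →+* Module.End ℂ U :=
  MonoidAlgebra.liftNCRingHom ((algebraMap ℂ (Module.End ℂ U)).comp (algebraMap ℚ ℂ)) Θ
    (fun x y => Algebra.commute_algebraMap_left (algebraMap ℚ ℂ x) (Θ y))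

theorem ev_single {U : Type*} [AddCommGroup U] [Module ℂ U] (Θ : Representation ℂ G U) (g : G)
    (r : ℚ) : ev Θ (MonoidAlgebra.single g r) = (r : ℂ) • Θ g := by
  unfold ev
  rw [MonoidAlgebra.liftNCRingHom_single]
  ext u
  simp [Module.End.mul_apply, Module.algebraMap_end_apply]

/-- The element of the group ring with given coefficients. -/
noncomputable def el [Fintype G] (z : G → ℚ) : MonoidAlgebra ℚ G :=
  ∑ g, MonoidAlgebra.single g (z g)

theorem ev_el [Fintype G] {U : Type*} [AddCommGroup U] [Module ℂ U] (Θ : Representation ℂ G U)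
    (z : G → ℚ) : ev Θ (el z) = ∑ g, (z g : ℂ) • Θ g := by
  unfold el
  rw [map_sum]
  exact Finset.sum_congr rfl fun g _ => ev_single Θ g _

theorem as_el [Fintype G] {V : Type*} [AddCommGroup V] [Module ℚ V] (ρ : Representation ℚ G V)
    (z : G → ℚ) : ρ.asAlgebraHom (el z) = ∑ g, z g • ρ g := by
  unfold el
  rw [map_sum]
  exact Finset.sum_congr rfl fun g _ => by rw [Representation.asAlgebraHom_single]

/-- The complexification of a rational representation of finite dimension. -/
noncomputable def cpx {n : ℕ} {M : Type*} [AddCommGroup M] [Module ℚ M]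
    (b : Basis (Fin n) ℚ M) (ρ : Representation ℚ G M) : Representation ℂ G (Fin n → ℂ) where
  toFun g := Matrix.toLin' ((LinearMap.toMatrix b b (ρ g)).map (algebraMap ℚ ℂ))
  map_one' := by
    rw [map_one, LinearMap.toMatrix_one, Matrix.map_one _ (map_zero _) (map_one _)]
    exact Matrix.toLin'_one
  map_mul' g h := by
    rw [map_mul, LinearMap.toMatrix_mul, Matrix.map_mul]
    exact Matrix.toLin'_mul _ _

/-- The complex coordinates of a vector. -/
noncomputable def vec {n : ℕ} {M : Type*} [AddCommGroup M] [Module ℚ M]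
    (b : Basis (Fin n) ℚ M) (m : M) : Fin n → ℂ := fun i => ((b.repr m i : ℚ) : ℂ)

theorem vec_add {n : ℕ} {M : Type*} [AddCommGroup M] [Module ℚ M]
    (b : Basis (Fin n) ℚ M) (m m' : M) : vec b (m + m') = vec b m + vec b m' := by
  funext i
  simp [vec]

theorem vec_smul {n : ℕ} {M : Type*} [AddCommGroup M] [Module ℚ M]
    (b : Basis (Fin n) ℚ M) (r : ℚ) (m : M) : vec b (r • m) = (r : ℂ) • vec b m := by
  funext i
  simp [vec]

theorem vec_apply {n : ℕ} {M : Type*} [AddCommGroup M] [Module ℚ M]
    (b : Basis (Fin n) ℚ M) (ρ : Representation ℚ G M) (g : G) (m : M) :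
    vec b (ρ g m) = cpx b ρ g (vec b m) := by
  funext i
  change _ = Matrix.toLin' _ _ _
  rw [Matrix.toLin'_apply, Matrix.mulVec]
  have h1 := congrFun (LinearMap.toMatrix_mulVec_repr b b (ρ g) m) i
  unfold vec
  rw [← h1, Matrix.mulVec]
  simp [dotProduct]

theorem vec_ev {n : ℕ} {M : Type*} [AddCommGroup M] [Module ℚ M]
    (b : Basis (Fin n) ℚ M) (ρ : Representation ℚ G M) (r : MonoidAlgebra ℚ G) (m : M) :
    vec b (ρ.asAlgebraHom r m) = ev (cpx b ρ) r (vec b m) := by
  induction r using MonoidAlgebra.induction_linear with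
  | zero =>
    rw [map_zero, map_zero, LinearMap.zero_apply, LinearMap.zero_apply]
    funext i
    simp [vec]
  | add r s hr hs => rw [map_add, map_add, LinearMap.add_apply, LinearMap.add_apply, vec_add, hr, hs]
  | single g a =>
    rw [ev_single, Representation.asAlgebraHom_single, LinearMap.smul_apply, LinearMap.smul_apply,
      vec_smul, vec_apply]

/-- The main algebraic statement: an element `z` of the group ring acts as zero on `V` if no nonzero
vector of `V` is fixed by a good subgroup, and every complex representation on which `z` does not act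
as zero has a nonzero vector fixed by a good subgroup. -/
theorem act_eq_zero [Finite G] {V : Type*} [AddCommGroup V]
    [Module ℚ V] (ρ : Representation ℚ G V) (good : Subgroup G → Prop)
    (hinv : ∀ H, good H → ∀ x : V, (∀ h ∈ H, ρ h x = x) → x = 0)
    (z : MonoidAlgebra ℚ G)
    (hdet : ∀ (n : ℕ) (σ : Representation ℂ G (Fin n → ℂ)), ev σ z ≠ 0 →
      ∃ H, good H ∧ ∃ w : Fin n → ℂ, w ≠ 0 ∧ ∀ h ∈ H, σ h w = w)
    (x : V) : ρ.asAlgebraHom z x = 0 := by
  classical
  cases nonempty_fintype G
  have : NeZero ((Nat.card G : ℕ) : ℚ) := ⟨by exact_mod_cast Nat.card_pos.ne'⟩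
  have hss : IsSemisimpleRing (MonoidAlgebra ℚ G) := inferInstance
  obtain ⟨e, he, hI⟩ := IsSemisimpleRing.ideal_eq_span_idempotent
    (Ideal.span (Set.range fun b : MonoidAlgebra ℚ G => z * b))
  have hze : z * e = z := by
    have h1 : z ∈ Ideal.span (Set.range fun b : MonoidAlgebra ℚ G => z * b) :=
      Ideal.subset_span ⟨1, mul_one z⟩
    rw [hI, Ideal.mem_span_singleton'] at h1
    obtain ⟨a, ha⟩ := h1
    rw [← ha, mul_assoc, he]
  have hev : ∀ (n : ℕ) (σ : Representation ℂ G (Fin n → ℂ)), ev σ z = 0 → ev σ e = 0 := by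
    intro n σ h0
    have h1 : e ∈ Ideal.span (Set.range fun b : MonoidAlgebra ℚ G => z * b) := by
      rw [hI]
      exact Ideal.mem_span_singleton_self e
    have h2 : Ideal.span (Set.range fun b : MonoidAlgebra ℚ G => z * b) ≤ RingHom.ker (ev σ) := by
      rw [Ideal.span_le]
      rintro _ ⟨b, rfl⟩
      change ev σ (z * b) = 0
      rw [map_mul, h0, zero_mul]
    exact h2 h1
  set y := ρ.asAlgebraHom e x with hy
  have hey : ρ.asAlgebraHom e y = y := by
    rw [hy, ← Module.End.mul_apply, ← map_mul, he]
  have hzy : ρ.asAlgebraHom z x = ρ.asAlgebraHom z y := by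
    rw [hy, ← Module.End.mul_apply, ← map_mul, hze]
  rw [hzy]
  suffices h : y = 0 by rw [h, map_zero]
  by_contra hy0
  -- the orbit
  set M : Submodule ℚ V := Submodule.span ℚ (Set.range fun g => ρ g y) with hM
  have hMst : ∀ g, ∀ m ∈ M, ρ g m ∈ M := by
    intro g m hm
    induction hm using Submodule.span_induction with
    | mem m hm =>
      obtain ⟨h, rfl⟩ := hm
      refine Submodule.subset_span ⟨g * h, ?_⟩
      change ρ (g * h) y = ρ g (ρ h y)
      rw [map_mul]
      rfl
    | zero => rw [map_zero]; exact M.zero_mem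
    | add m m' _ _ h h' => rw [map_add]; exact M.add_mem h h'
    | smul r m _ h => rw [map_smul]; exact M.smul_mem _ h
  have hyM : y ∈ M := Submodule.subset_span ⟨1, by
    change ρ 1 y = y
    rw [map_one]
    rfl⟩
  have hfin : FiniteDimensional ℚ M := FiniteDimensional.span_of_finite ℚ (Set.finite_range _)
  let ρM : Representation ℚ G M :=
    { toFun := fun g => (ρ g).restrict (hMst g)
      map_one' := by
        ext m
        change ρ 1 (m : V) = m
        rw [map_one]
        rfl
      map_mul' := by
        intro g h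
        ext m
        change ρ (g * h) (m : V) = ρ g (ρ h m)
        rw [map_mul]
        rfl }
  have hρM : ∀ g (m : M), ((ρM g m : M) : V) = ρ g m := fun g m => rfl
  have hasM : ∀ (r : MonoidAlgebra ℚ G) (m : M),
      ((ρM.asAlgebraHom r m : M) : V) = ρ.asAlgebraHom r m := by
    intro r m
    induction r using MonoidAlgebra.induction_linear with
    | zero => simp
    | add r s hr hs =>
      rw [map_add, map_add, LinearMap.add_apply, LinearMap.add_apply, Submodule.coe_add, hr, hs]
    | single g a =>
      rw [Representation.asAlgebraHom_single, Representation.asAlgebraHom_single,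
        LinearMap.smul_apply, LinearMap.smul_apply, Submodule.coe_smul, hρM]
  set yM : M := ⟨y, hyM⟩ with hyMd
  have hyM0 : yM ≠ 0 := fun h => hy0 (congrArg Subtype.val h)
  set n := finrank ℚ M with hn
  set b : Basis (Fin n) ℚ M := finBasis ℚ M with hb
  obtain ⟨H, hH, w, hw0, hw⟩ := hdet n (cpx b ρM) (by
    intro h0
    have h1 : ρM.asAlgebraHom e yM = yM := Subtype.ext (by rw [hasM]; exact hey)
    have h2 : vec b yM = 0 := by
      rw [← h1, vec_ev, hev n _ h0, LinearMap.zero_apply]
    apply hyM0
    apply b.repr.injective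
    ext i
    have h3 := congrFun h2 i
    rw [map_zero]
    have h4 : ((b.repr yM i : ℚ) : ℂ) = 0 := h3
    exact Rat.cast_eq_zero.1 h4)
  -- the sum over the subgroup
  have h1 : ∑ h ∈ Finset.univ.filter (· ∈ H), ρM h = 0 := by
    ext m
    rw [LinearMap.sum_apply, LinearMap.zero_apply, Submodule.coe_zero]
    refine hinv H hH _ fun h hh => ?_
    rw [AddSubmonoidClass.coe_finsetSum, map_sum]
    refine Finset.sum_bij (fun g _ => h * g) ?_ ?_ ?_ ?_
    · intro g hg
      rw [Finset.mem_filter] at hg ⊢
      exact ⟨Finset.mem_univ _, H.mul_mem hh hg.2⟩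
    · intro g _ g' _ e
      exact mul_left_cancel e
    · intro g hg
      rw [Finset.mem_filter] at hg
      refine ⟨h⁻¹ * g, ?_, by group⟩
      rw [Finset.mem_filter]
      exact ⟨Finset.mem_univ _, H.mul_mem (H.inv_mem hh) hg.2⟩
    · intro g _
      rw [hρM, hρM, map_mul]
      rfl
  have h2 : ∑ h ∈ Finset.univ.filter (· ∈ H), cpx b ρM h = 0 := by
    change ∑ h ∈ Finset.univ.filter (· ∈ H),
      Matrix.toLin' ((LinearMap.toMatrix b b (ρM h)).map (algebraMap ℚ ℂ)) = 0
    rw [← map_sum]
    have h3 : ∑ h ∈ Finset.univ.filter (· ∈ H), (LinearMap.toMatrix b b (ρM h)).map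
        (algebraMap ℚ ℂ) = (LinearMap.toMatrix b b
          (∑ h ∈ Finset.univ.filter (· ∈ H), ρM h)).map (algebraMap ℚ ℂ) := by
      rw [map_sum]
      ext i j
      rw [Matrix.sum_apply]
      simp only [Matrix.map_apply]
      rw [Matrix.sum_apply, map_sum]
    rw [h3, h1, map_zero, Matrix.map_zero _ (map_zero _), map_zero]
  have h3 : ∑ h ∈ Finset.univ.filter (· ∈ H), cpx b ρM h w =
      ((Finset.univ.filter (· ∈ H)).card : ℂ) • w := by
    rw [Finset.sum_congr rfl fun h hh => hw h (Finset.mem_filter.1 hh).2, Finset.sum_const,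
      Nat.cast_smul_eq_nsmul]
  rw [← LinearMap.sum_apply, h2, LinearMap.zero_apply] at h3
  rcases smul_eq_zero.1 h3.symm with h4 | h4
  · have h5 : (Finset.univ.filter (· ∈ H)).card = 0 := by exact_mod_cast h4
    rw [Finset.card_eq_zero] at h5
    have h6 : (1 : G) ∈ Finset.univ.filter (· ∈ H) :=
      Finset.mem_filter.2 ⟨Finset.mem_univ _, H.one_mem⟩
    rw [h5] at h6
    exact absurd h6 (Finset.notMem_empty _)
  · exact hw0 h4

end Pool.Agent.Q63.BL
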