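import Mathlib

/-!
# Complex representations of finite abelian groups have vectors fixed by large subgroups
-/

set_option autoImplicit false

namespace Pool.Agent.Q63.BL

open Module Polynomial

/-- If an element of the group ring of a finite abelian group does not act as zero in a complex
representation, then it does not act as zero on an eigenvector. -/
theorem exists_char {G : Type*} [CommGroup G] [Fintype G] {n : ℕ}
    (σ : Representation ℂ G (Fin n → ℂ)) (c : G → ℚ) (hc : ∑ g, (c g : ℂ) • σ g ≠ 0) :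
    ∃ χ : G →* ℂˣ, ∑ g, (c g : ℂ) * (χ g : ℂ) ≠ 0 ∧
      ∃ w : Fin n → ℂ, w ≠ 0 ∧ ∀ g, σ g w = (χ g : ℂ) • w := by
  have hss : ∀ g, Module.End.IsSemisimple (σ g) := by
    intro g
    have h1 : (σ g) ^ orderOf g = 1 := by
      rw [← map_pow, pow_orderOf_eq_one, map_one]
    have h0 : ((orderOf g : ℕ) : ℂ) ≠ 0 := by exact_mod_cast (orderOf_pos g).ne'
    refine Module.End.isSemisimple_of_squarefree_aeval_eq_zero (p := X ^ orderOf g - C 1)
      (separable_X_pow_sub_C (1 : ℂ) h0 one_ne_zero).squarefree ?_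
    rw [map_sub, map_pow, aeval_X, h1, map_one, map_one, sub_self]
  have htop := Module.End.iSup_iInf_maxGenEigenspace_eq_top_of_iSup_maxGenEigenspace_eq_top_of_commute
    (fun g => σ g) (fun g h _ => by
      change σ g * σ h = σ h * σ g
      rw [← map_mul, mul_comm, map_mul]) (fun g => Module.End.iSup_maxGenEigenspace_eq_top _)
  by_contra hcon
  push Not at hcon
  apply hc
  have hle : ∀ χ : G → ℂ, ⨅ g, Module.End.maxGenEigenspace (σ g) (χ g) ≤
      LinearMap.ker (∑ g, (c g : ℂ) • σ g) := by
    intro χ w hw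
    by_cases hw0 : w = 0
    · rw [hw0]
      exact Submodule.zero_mem _
    have hwe : ∀ g, σ g w = χ g • w := by
      intro g
      have h1 := (Submodule.mem_iInf _).1 hw g
      rw [(hss g).isFinitelySemisimple.maxGenEigenspace_eq_eigenspace] at h1
      exact Module.End.mem_eigenspace_iff.1 h1
    have hχ1 : χ 1 = 1 := by
      have h1 := hwe 1
      rw [map_one] at h1
      have h2 : (χ 1 - 1) • w = 0 := by
        rw [sub_smul, ← h1, one_smul, Module.End.one_apply, sub_self]
      rcases smul_eq_zero.1 h2 with h | h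
      · exact sub_eq_zero.1 h
      · exact absurd h hw0
    have hχm : ∀ g h, χ (g * h) = χ g * χ h := by
      intro g h
      have h1 := hwe (g * h)
      rw [map_mul, Module.End.mul_apply, hwe h, map_smul, hwe g, smul_smul] at h1
      have h2 : (χ (g * h) - χ g * χ h) • w = 0 := by
        rw [sub_smul, ← h1, mul_comm (χ g), sub_self]
      rcases smul_eq_zero.1 h2 with h' | h'
      · exact sub_eq_zero.1 h'
      · exact absurd h' hw0
    let χm : G →* ℂ := ⟨⟨χ, hχ1⟩, hχm⟩
    have h3 := hcon χm.toHomUnits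
    have h4 : ∀ g, ((χm.toHomUnits g : ℂˣ) : ℂ) = χ g := fun g => rfl
    rw [LinearMap.mem_ker, LinearMap.sum_apply]
    by_cases h5 : ∑ g, (c g : ℂ) * ((χm.toHomUnits g : ℂˣ) : ℂ) = 0
    · simp only [LinearMap.smul_apply, hwe, smul_smul]
      rw [← Finset.sum_smul]
      simp only [h4] at h5
      rw [h5, zero_smul]
    · obtain ⟨g, hg⟩ := h3 h5 w hw0
      exact absurd (by rw [hwe, h4]) hg
  have h6 : (⊤ : Submodule ℂ (Fin n → ℂ)) ≤ LinearMap.ker (∑ g, (c g : ℂ) • σ g) := by
    rw [← htop]
    exact iSup_le hle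
  exact LinearMap.ker_eq_top.1 (top_le_iff.1 h6)

/-- The kernel of a character has small index. -/
theorem card_le_ker {G : Type*} [CommGroup G] [Finite G] (ψ : G →* ℂˣ) :
    Nat.card G ≤ Nat.card ψ.ker * Monoid.exponent G := by
  have h1 : Nat.card G = Nat.card (G ⧸ ψ.ker) * Nat.card ψ.ker :=
    Subgroup.card_eq_card_quotient_mul_card_subgroup _
  have h2 : Nat.card (G ⧸ ψ.ker) = Nat.card ψ.range :=
    Nat.card_congr (QuotientGroup.quotientKerEquivRange ψ).toEquiv
  have hfin : Finite ψ.range := Set.finite_range ψ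
  have hcyc : IsCyclic ψ.range := isCyclic_subgroup_units ψ.range
  have h3 : Nat.card ψ.range ∣ Monoid.exponent G := by
    rw [← IsCyclic.exponent_eq_card]
    exact MonoidHom.exponent_dvd (ψ.rangeRestrict_surjective)
  have h4 : Nat.card ψ.range ≤ Monoid.exponent G :=
    Nat.le_of_dvd (Nat.pos_of_ne_zero Monoid.exponent_ne_zero_of_finite) h3
  rw [h1, h2, mul_comm]
  exact Nat.mul_le_mul_left _ h4

end Pool.Agent.Q63.BL
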