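import Mathlib

/-!
# Zero-cycles on surfaces with finite groups of automorphisms: definitions

`𝒮` is the category of the smooth projective complex surfaces. The functor `T` gives the groups
`F^2 CH_0(S) ⊗ ℚ` (the kernel of the Albanese map on the zero-cycles of degree zero, with rational
coefficients) with push-forward, and `Om` the spaces `H^{2,0}(S)` of holomorphic two-forms with
pull-back. The number `vol S` is the self-intersection `K^2` of the canonical class of the minimal
model if `S` is of general type, and `0` otherwise; it is the volume of the canonical divisor.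
-/

set_option autoImplicit false

open CategoryTheory Opposite

universe u v w w'

namespace Pool.Agent.Q63.BL

variable {𝒮 : Type u} [Category.{v} 𝒮]

/-- The push-forward of zero-cycles along a morphism. -/
noncomputable def push (T : 𝒮 ⥤ ModuleCat.{w} ℚ) {S S' : 𝒮} (f : S ⟶ S') :
    T.obj S →ₗ[ℚ] T.obj S' := (T.map f).hom

/-- The pull-back of holomorphic two-forms along a morphism. -/
noncomputable def pull (Om : 𝒮ᵒᵖ ⥤ ModuleCat.{w'} ℂ) {S S' : 𝒮} (f : S ⟶ S') :
    Om.obj (op S') →ₗ[ℂ] Om.obj (op S) := (Om.map f.op).hom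

/-- The kernel of the Albanese map on zero-cycles is torsion. -/
def NoCycles (T : 𝒮 ⥤ ModuleCat.{w} ℚ) (S : 𝒮) : Prop := ∀ x : T.obj S, x = 0

/-- There are no holomorphic two-forms: `p_g = 0`. -/
def NoForms (Om : 𝒮ᵒᵖ ⥤ ModuleCat.{w'} ℂ) (S : 𝒮) : Prop := ∀ ω : Om.obj (op S), ω = 0

/-- There are no holomorphic two-forms invariant under the automorphisms in the subgroup `H`. -/
def NoInvForms (Om : 𝒮ᵒᵖ ⥤ ModuleCat.{w'} ℂ) {G : Type} [Group G] {S : 𝒮} (a : G →* Aut S)
    (H : Subgroup G) : Prop :=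
  ∀ ω : Om.obj (op S), (∀ h ∈ H, pull Om (a h).hom ω = ω) → ω = 0

/-- Known theorems on surfaces.

* `quotient`: let the finite group `G` act faithfully on `S`, and let `Y` be a resolution of the
  singularities of the quotient `S / G`. Then `|G| * vol Y ≤ vol S` (the canonical divisor of `Y` pulls
  back to a part of the canonical divisor of a blow up of `S`), all holomorphic two-forms on `Y` are
  zero if there are no invariant ones on `S`, and `F^2 CH_0(Y) ⊗ ℚ` is the space of invariants of `G`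
  on `F^2 CH_0(S) ⊗ ℚ`.
* `bkl`: the theorem of Bloch, Kas and Lieberman: if `S` is not of general type and has no nonzero
  holomorphic two-form then `F^2 CH_0(S) = 0`.
* `bmy`: if `S` has no nonzero holomorphic two-form then `vol S ≤ 9` (for surfaces of general type:
  `K^2 ≤ 9 χ`, Bogomolov, Miyaoka and Yau, and `χ ≤ 1`). -/
structure IsSurfaceTheory (T : 𝒮 ⥤ ModuleCat.{w} ℚ) (Om : 𝒮ᵒᵖ ⥤ ModuleCat.{w'} ℂ)
    (vol : 𝒮 → ℕ) : Prop where
  quotient : ∀ {G : Type} [Group G] [Finite G] {S : 𝒮} (a : G →* Aut S), Function.Injective a →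
    ∃ Y : 𝒮, Nat.card G * vol Y ≤ vol S ∧ (NoInvForms Om a ⊤ → NoForms Om Y) ∧
      (NoCycles T Y → ∀ x : T.obj S, (∀ g, push T (a g).hom x = x) → x = 0)
  bkl : ∀ S, NoForms Om S → vol S = 0 → NoCycles T S
  bmy : ∀ S, NoForms Om S → vol S ≤ 9

/-- Bloch's conjecture for the surfaces with `p_g = 0` and `K^2 ≤ k`. -/
def BlochUpTo (T : 𝒮 ⥤ ModuleCat.{w} ℚ) (Om : 𝒮ᵒᵖ ⥤ ModuleCat.{w'} ℂ) (vol : 𝒮 → ℕ) (k : ℕ) :
    Prop :=
  ∀ S, NoForms Om S → vol S ≤ k → NoCycles T S

end Pool.Agent.Q63.BL
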