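import Pool.Agent.Q63.BL.Defs
import Pool.Agent.Q63.BL.Alg
import Pool.Agent.Q63.BL.Comm

/-!
# Zero-cycles on surfaces with finite groups of automorphisms
-/

set_option autoImplicit false

open CategoryTheory Opposite

universe u v w w'

namespace Pool.Agent.Q63.BL

variable {𝒮 : Type u} [Category.{v} 𝒮] {T : 𝒮 ⥤ ModuleCat.{w} ℚ}
  {Om : 𝒮ᵒᵖ ⥤ ModuleCat.{w'} ℂ} {vol : 𝒮 → ℕ}

/-- The action of a group of automorphisms on the zero-cycles. -/
noncomputable def act (T : 𝒮 ⥤ ModuleCat.{w} ℚ) {G : Type} [Group G] {S : 𝒮} (a : G →* Aut S) :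
    Representation ℚ G (T.obj S) where
  toFun g := push T (a g).hom
  map_one' := by
    unfold push
    rw [map_one]
    change (T.map (𝟙 S)).hom = _
    rw [T.map_id]
    rfl
  map_mul' g h := by
    unfold push
    rw [map_mul]
    change (T.map ((a h).hom ≫ (a g).hom)).hom = _
    rw [T.map_comp]
    rfl

theorem act_apply {G : Type} [Group G] {S : 𝒮} (a : G →* Aut S) (g : G) (x : T.obj S) :
    act T a g x = push T (a g).hom x := rfl

/-- No nonzero cycle is fixed by a large subgroup without invariant forms. -/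
theorem inv_eq_zero (hT : IsSurfaceTheory T Om vol) {k : ℕ} (hk : BlochUpTo T Om vol k) {G : Type}
    [Group G] [Finite G] {S : 𝒮} {a : G →* Aut S} (ha : Function.Injective a) {H : Subgroup G}
    (hH : NoInvForms Om a H) (hv : vol S < (k + 1) * Nat.card H) (x : T.obj S)
    (hx : ∀ h ∈ H, act T a h x = x) : x = 0 := by
  obtain ⟨Y, h1, h2, h3⟩ := hT.quotient (a.comp H.subtype) (ha.comp H.subtype_injective)
  have h4 : NoForms Om Y := h2 fun ω hω => hH ω fun h hh => hω ⟨h, hh⟩ (Subgroup.mem_top _)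
  have h5 : vol Y ≤ k := by
    by_contra hcon
    have h6 : k + 1 ≤ vol Y := by omega
    have h7 := Nat.mul_le_mul_left (Nat.card H) h6
    have h8 : Nat.card H * (k + 1) = (k + 1) * Nat.card H := mul_comm _ _
    omega
  exact h3 (hk Y h4 h5) x fun g => hx g.1 g.2

theorem blochUpTo_zero (hT : IsSurfaceTheory T Om vol) : BlochUpTo T Om vol 0 :=
  fun S h h0 => hT.bkl S h (Nat.le_zero.1 h0)

/-- Bloch's conjecture for the correspondences in the group ring. -/
theorem corr_eq_zero (hT : IsSurfaceTheory T Om vol) {k : ℕ} (hk : BlochUpTo T Om vol k) {G : Type}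
    [Group G] [Fintype G] {S : 𝒮} {a : G →* Aut S} (ha : Function.Injective a) (z : G → ℚ)
    (hdet : ∀ (n : ℕ) (σ : Representation ℂ G (Fin n → ℂ)), ∑ g, (z g : ℂ) • σ g ≠ 0 →
      ∃ H : Subgroup G, NoInvForms Om a H ∧ vol S < (k + 1) * Nat.card H ∧
        ∃ w : Fin n → ℂ, w ≠ 0 ∧ ∀ h ∈ H, σ h w = w)
    (x : T.obj S) : ∑ g, z g • push T (a g).hom x = 0 := by
  have h1 := act_eq_zero (act T a)
    (fun H => NoInvForms Om a H ∧ vol S < (k + 1) * Nat.card H)
    (fun H hH x hx => inv_eq_zero hT hk ha hH.1 hH.2 x hx) (el z) (by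
      intro n σ h
      rw [ev_el] at h
      obtain ⟨H, h1, h2, h3⟩ := hdet n σ h
      exact ⟨H, ⟨h1, h2⟩, h3⟩) x
  rw [as_el, LinearMap.sum_apply] at h1
  exact h1

/-- Abelian groups. -/
theorem corr_eq_zero_comm (hT : IsSurfaceTheory T Om vol) {k : ℕ} (hk : BlochUpTo T Om vol k)
    {G : Type} [CommGroup G] [Fintype G] {S : 𝒮} {a : G →* Aut S} (ha : Function.Injective a)
    (z : G → ℚ) (hdet : ∀ χ : G →* ℂˣ, ∑ g, (z g : ℂ) * (χ g : ℂ) ≠ 0 →
      NoInvForms Om a χ.ker ∧ vol S < (k + 1) * Nat.card χ.ker)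
    (x : T.obj S) : ∑ g, z g • push T (a g).hom x = 0 := by
  refine corr_eq_zero hT hk ha z (fun n σ h => ?_) x
  obtain ⟨χ, h1, w, hw0, hw⟩ := exists_char σ z h
  refine ⟨χ.ker, (hdet χ h1).1, (hdet χ h1).2, w, hw0, fun g hg => ?_⟩
  have h2 : χ g = 1 := hg
  rw [hw, h2, Units.val_one, one_smul]

theorem noInvForms_of_noForms {G : Type} [Group G] {S : 𝒮} (a : G →* Aut S) (H : Subgroup G)
    (h : NoForms Om S) : NoInvForms Om a H := fun ω _ => h ω

/-- Surfaces without holomorphic two-forms. -/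
theorem noCycles (hT : IsSurfaceTheory T Om vol) {k : ℕ} (hk : BlochUpTo T Om vol k) {G : Type}
    [Group G] [Finite G] {S : 𝒮} (hS : NoForms Om S) {a : G →* Aut S} (ha : Function.Injective a)
    (hdet : ∀ (n : ℕ) (σ : Representation ℂ G (Fin n → ℂ)), 0 < n →
      ∃ H : Subgroup G, vol S < (k + 1) * Nat.card H ∧
        ∃ w : Fin n → ℂ, w ≠ 0 ∧ ∀ h ∈ H, σ h w = w) : NoCycles T S := by
  classical
  cases nonempty_fintype G
  intro x
  have h1 := corr_eq_zero hT hk ha (fun g => if g = 1 then 1 else 0) (fun n σ h => by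
    have hn : 0 < n := by
      rcases Nat.eq_zero_or_pos n with rfl | hn
      · exact absurd (Subsingleton.elim _ _) h
      · exact hn
    obtain ⟨H, h1, h2⟩ := hdet n σ hn
    exact ⟨H, noInvForms_of_noForms a H hS, h1, h2⟩) x
  rw [Finset.sum_eq_single 1] at h1
  · rw [if_pos rfl, one_smul, ← act_apply, map_one] at h1
    exact h1
  · intro g _ hg
    rw [if_neg hg, zero_smul]
  · intro h
    exact absurd (Finset.mem_univ _) h

/-- Abelian groups acting on surfaces without holomorphic two-forms. -/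
theorem noCycles_comm (hT : IsSurfaceTheory T Om vol) {k : ℕ} (hk : BlochUpTo T Om vol k)
    {G : Type} [CommGroup G] [Finite G] {S : 𝒮} (hS : NoForms Om S) {a : G →* Aut S}
    (ha : Function.Injective a) (hG : vol S * Monoid.exponent G < (k + 1) * Nat.card G) :
    NoCycles T S := by
  classical
  cases nonempty_fintype G
  refine noCycles hT hk hS ha fun n σ hn => ?_
  have hone : ∑ g : G, (((if g = 1 then 1 else 0 : ℚ) : ℚ) : ℂ) • σ g ≠ 0 := by
    rw [Finset.sum_eq_single 1]
    · rw [if_pos rfl, map_one, Rat.cast_one, one_smul]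
      have : Nonempty (Fin n) := ⟨⟨0, hn⟩⟩
      exact one_ne_zero
    · intro g _ hg
      rw [if_neg hg, Rat.cast_zero, zero_smul]
    · intro h
      exact absurd (Finset.mem_univ _) h
  obtain ⟨χ, -, w, hw0, hw⟩ := exists_char σ _ hone
  refine ⟨χ.ker, ?_, w, hw0, fun g hg => ?_⟩
  · have h1 := card_le_ker χ
    have h2 : vol S * Monoid.exponent G < (k + 1) * (Nat.card χ.ker * Monoid.exponent G) :=
      lt_of_lt_of_le hG (Nat.mul_le_mul_left _ h1)
    rw [← mul_assoc] at h2
    exact lt_of_mul_lt_mul_right h2 (Nat.zero_le _)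
  · have h2 : χ g = 1 := hg
    rw [hw, h2, Units.val_one, one_smul]

/-- Groups with a partition. -/
theorem noCycles_partition (hT : IsSurfaceTheory T Om vol) {k : ℕ} (hk : BlochUpTo T Om vol k)
    {G : Type} [Group G] [Finite G] {S : 𝒮} (hS : NoForms Om S) {a : G →* Aut S}
    (ha : Function.Injective a) {ι : Type} [Finite ι] (C : ι → Subgroup G)
    (h2 : 1 < Nat.card ι) (hpart : ∀ g : G, g ≠ 1 → ∃! i, g ∈ C i)
    (hv : ∀ i, vol S < (k + 1) * Nat.card (C i)) : NoCycles T S := fun x =>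
  eq_zero_of_partition (act T a) C h2 hpart
    (fun i x hx => inv_eq_zero hT hk ha (noInvForms_of_noForms a _ hS) (hv i) x hx) x

/-- Noncyclic groups whose order is a product of two primes. -/
theorem noCycles_pq (hT : IsSurfaceTheory T Om vol) {k : ℕ} (hk : BlochUpTo T Om vol k)
    {G : Type} [Group G] [Finite G] {S : 𝒮} (hS : NoForms Om S) {a : G →* Aut S}
    (ha : Function.Injective a) {p q : ℕ} (hp : p.Prime) (hq : q.Prime)
    (hG : Nat.card G = p * q) (hc : ¬ IsCyclic G) (hvp : vol S < (k + 1) * p)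
    (hvq : vol S < (k + 1) * q) : NoCycles T S := by
  obtain ⟨h1, h2⟩ := partition_of_not_isCyclic hp hq hG hc
  refine noCycles_partition hT hk hS ha
    (fun C : {C : Subgroup G // Nat.card C = p ∨ Nat.card C = q} => C.1) h1 h2 fun i => ?_
  rcases i.2 with h | h
  · rw [h]; exact hvp
  · rw [h]; exact hvq

end Pool.Agent.Q63.BL
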