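import Mathlib

/-!
# Representations without vectors fixed by large subgroups
-/

set_option autoImplicit false

namespace Pool.Agent.Q63.BL

open Module

variable {G : Type*} [Group G]

section partition

variable {V : Type*} [AddCommGroup V] [Module ℚ V]

/-- A group with a partition into subgroups: if no nonzero vector is fixed by a subgroup of the
partition, then the representation is zero. -/
theorem eq_zero_of_partition [Finite G] (ρ : Representation ℚ G V) {ι : Type*} [Finite ι]
    (C : ι → Subgroup G) (h2 : 1 < Nat.card ι) (hpart : ∀ g : G, g ≠ 1 → ∃! i, g ∈ C i)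
    (hinv : ∀ i x, (∀ h ∈ C i, ρ h x = x) → x = 0) (x : V) : x = 0 := by
  classical
  cases nonempty_fintype G
  cases nonempty_fintype ι
  rw [Nat.card_eq_fintype_card] at h2
  have h1 : ∀ i, ∑ g ∈ Finset.univ.filter (· ∈ C i), ρ g x = 0 := by
    intro i
    refine hinv i _ fun h hh => ?_
    rw [map_sum]
    refine Finset.sum_bij (fun g _ => h * g) ?_ ?_ ?_ ?_
    · intro g hg
      rw [Finset.mem_filter] at hg ⊢
      exact ⟨Finset.mem_univ _, (C i).mul_mem hh hg.2⟩
    · intro g _ g' _ e
      exact mul_left_cancel e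
    · intro g hg
      rw [Finset.mem_filter] at hg
      refine ⟨h⁻¹ * g, ?_, by group⟩
      rw [Finset.mem_filter]
      exact ⟨Finset.mem_univ _, (C i).mul_mem ((C i).inv_mem hh) hg.2⟩
    · intro g _
      rw [map_mul]
      rfl
  obtain ⟨i0⟩ : Nonempty ι := Fintype.card_pos_iff.1 (by omega)
  have h3 : ∑ g : G, ρ g x = 0 := by
    refine hinv i0 _ fun h _ => ?_
    rw [map_sum]
    refine Fintype.sum_bijective (fun g => h * g) (Group.mulLeft_bijective h) _ _ fun g => ?_
    rw [map_mul]
    rfl
  have h4 : ∑ i, ∑ g ∈ Finset.univ.filter (· ∈ C i), ρ g x =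
      ((Fintype.card ι : ℚ) - 1) • x + ∑ g : G, ρ g x := by
    have h5 : ∑ i, ∑ g ∈ Finset.univ.filter (· ∈ C i), ρ g x =
        ∑ g : G, ∑ i : ι, if g ∈ C i then ρ g x else 0 := by
      rw [Finset.sum_comm]
      exact Finset.sum_congr rfl fun i _ => Finset.sum_filter _ _
    rw [h5, ← Finset.add_sum_erase Finset.univ
        (fun g => ∑ i : ι, if g ∈ C i then ρ g x else 0) (Finset.mem_univ (1 : G)),
      ← Finset.add_sum_erase Finset.univ (fun g => ρ g x) (Finset.mem_univ (1 : G))]
    have h6 : ∑ i : ι, (if (1 : G) ∈ C i then ρ 1 x else 0) = (Fintype.card ι : ℚ) • x := by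
      have : ∀ i : ι, (if (1 : G) ∈ C i then ρ 1 x else 0) = x := fun i => by
        rw [if_pos (C i).one_mem, map_one]
        rfl
      rw [Finset.sum_congr rfl fun i _ => this i, Finset.sum_const, Finset.card_univ,
        Nat.cast_smul_eq_nsmul]
    have h7 : ∀ g ∈ Finset.univ.erase (1 : G), (∑ i : ι, if g ∈ C i then ρ g x else 0) = ρ g x := by
      intro g hg
      obtain ⟨i, hi, huniq⟩ := hpart g (Finset.ne_of_mem_erase hg)
      rw [Finset.sum_eq_single i]
      · rw [if_pos hi]
      · intro j _ hj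
        rw [if_neg]
        intro h
        exact hj (huniq j h)
      · intro h
        exact absurd (Finset.mem_univ _) h
    rw [h6, Finset.sum_congr rfl h7, map_one]
    change _ = _ + (x + _)
    rw [← add_assoc, sub_smul, one_smul, sub_add_cancel]
  rw [Finset.sum_congr rfl fun i _ => h1 i, Finset.sum_const_zero, h3, add_zero] at h4
  rcases smul_eq_zero.1 h4.symm with h | h
  · exfalso
    have h8 : (Fintype.card ι : ℚ) = 1 := by linarith
    have h9 : Fintype.card ι = 1 := by exact_mod_cast h8
    omega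
  · exact h

end partition

/-- A noncyclic group whose order is a product of two primes has a partition into subgroups of
prime order. -/
theorem partition_of_not_isCyclic {p q : ℕ} (hp : p.Prime) (hq : q.Prime) [Finite G]
    (hG : Nat.card G = p * q) (hc : ¬ IsCyclic G) :
    1 < Nat.card {C : Subgroup G // Nat.card C = p ∨ Nat.card C = q} ∧
      ∀ g : G, g ≠ 1 → ∃! i : {C : Subgroup G // Nat.card C = p ∨ Nat.card C = q}, g ∈ i.1 := by
  classical
  have hord : ∀ g : G, g ≠ 1 → orderOf g = p ∨ orderOf g = q := by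
    intro g hg
    have h1 : orderOf g ∣ p * q := hG ▸ orderOf_dvd_natCard g
    have h2 : orderOf g ≠ 1 := fun h => hg (orderOf_eq_one_iff.1 h)
    have h3 : orderOf g ≠ p * q := fun h =>
      hc (isCyclic_of_orderOf_eq_card g (by rw [h, hG]))
    rcases (Nat.dvd_mul).1 h1 with ⟨a, b, ha, hb, hab⟩
    rcases (Nat.dvd_prime hp).1 ha with rfl | rfl <;>
      rcases (Nat.dvd_prime hq).1 hb with rfl | rfl
    · exact absurd hab.symm (by simpa using h2)
    · right
      simpa using hab.symm
    · left
      simpa using hab.symm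
    · exact absurd hab.symm h3
  have hex : ∀ g : G, g ≠ 1 →
      ∃! i : {C : Subgroup G // Nat.card C = p ∨ Nat.card C = q}, g ∈ i.1 := by
    intro g hg
    refine ⟨⟨Subgroup.zpowers g, by rw [Nat.card_zpowers]; exact hord g hg⟩,
      Subgroup.mem_zpowers g, ?_⟩
    rintro ⟨C, hC⟩ hgC
    apply Subtype.ext
    change C = Subgroup.zpowers g
    symm
    refine Subgroup.eq_of_le_of_card_ge ((Subgroup.zpowers_le).2 hgC) ?_
    rw [Nat.card_zpowers]
    have h1 : orderOf g ∣ Nat.card C := by
      have h2 := orderOf_dvd_natCard (⟨g, hgC⟩ : C)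
      rwa [Subgroup.orderOf_mk] at h2
    have h3 : orderOf g ≠ 1 := fun h => hg (orderOf_eq_one_iff.1 h)
    rcases hC with hC | hC
    · rw [hC] at h1 ⊢
      rcases (Nat.dvd_prime hp).1 h1 with h | h
      · exact absurd h h3
      · exact h.ge
    · rw [hC] at h1 ⊢
      rcases (Nat.dvd_prime hq).1 h1 with h | h
      · exact absurd h h3
      · exact h.ge
  refine ⟨?_, hex⟩
  by_contra hle
  have hcard : 1 < Nat.card G := by
    rw [hG]
    exact lt_of_lt_of_le hp.one_lt (Nat.le_mul_of_pos_right p hq.pos)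
  have hnt : Nontrivial G := Finite.one_lt_card_iff_nontrivial.1 hcard
  obtain ⟨g0, hg0⟩ := exists_ne (1 : G)
  obtain ⟨i0, hi0, -⟩ := hex g0 hg0
  have hsub : Subsingleton {C : Subgroup G // Nat.card C = p ∨ Nat.card C = q} :=
    Finite.card_le_one_iff_subsingleton.1 (not_lt.1 hle)
  have htop : i0.1 = ⊤ := by
    rw [eq_top_iff]
    intro g _
    by_cases hg : g = 1
    · rw [hg]
      exact i0.1.one_mem
    · obtain ⟨i, hi, -⟩ := hex g hg
      rwa [hsub.elim i0 i]
  have h5 : Nat.card i0.1 = p * q := by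
    rw [htop, Subgroup.card_top, hG]
  have h6 := hp.one_lt
  have h7 := hq.one_lt
  rcases i0.2 with h | h
  · rw [h] at h5
    nlinarith
  · rw [h] at h5
    nlinarith

end Pool.Agent.Q63.BL
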